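import Mathlib

/-!
# Two disjoint families of free ultrafilters on `ℕ`, each of which meets every infinite set
-/

set_option autoImplicit false

namespace Pool.Agent.H75.SD

open Set Filter Cardinal

/-- Injective choice: if every `S i` has at least as many elements as there are indices, then there
is an injective choice function. -/
theorem exists_injective_choice {ι α : Type} (S : ι → Set α) (h : ∀ i, #ι ≤ #(S i)) :
    ∃ f : ι → α, Function.Injective f ∧ ∀ i, f i ∈ S i := by
  classical
  obtain ⟨r, wo, hr⟩ := Cardinal.exists_ord_eq ι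
  have hlt : ∀ i : ι, #{j : ι // r j i} < #ι := by
    intro i
    have h1 := Ordinal.typein_lt_type r i
    rw [← hr, Cardinal.lt_ord] at h1
    exact h1
  have key : ∀ (i : ι) (g : ∀ j, r j i → α), ∃ a ∈ S i, ∀ j (hj : r j i), g j hj ≠ a := by
    intro i g
    by_contra hcon
    push Not at hcon
    have h2 : #(S i) ≤ #{j : ι // r j i} := by
      have hsurj : ∀ a : S i, ∃ j : {j : ι // r j i}, g j.1 j.2 = a := by
        intro a
        obtain ⟨j, hj, e⟩ := hcon a.1 a.2
        exact ⟨⟨j, hj⟩, e⟩
      choose t ht using hsurj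
      refine Cardinal.mk_le_of_injective (f := t) ?_
      intro a b hab
      apply Subtype.ext
      rw [← ht a, ← ht b, hab]
    exact absurd ((h i).trans h2) (not_le.2 (hlt i))
  choose c hc1 hc2 using key
  let f : ι → α := wo.wf.fix (fun i g => c i g)
  have hf : ∀ i, f i = c i (fun j _ => f j) := fun i => wo.wf.fix_eq _ i
  refine ⟨f, ?_, ?_⟩
  · have hne : ∀ i j, r j i → f j ≠ f i := by
      intro i j hj
      rw [hf i]
      exact hc2 i (fun j _ => f j) j hj
    intro i j hij
    by_contra hne'
    rcases (trichotomous_of r i j) with h1 | h1 | h1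
    · exact hne j i h1 hij
    · exact hne' h1
    · exact hne i j h1 hij.symm
  · intro i
    rw [hf i]
    exact hc1 i _

/-- The branch of the binary tree belonging to `x`, coded as a set of natural numbers. -/
def br (x : ℕ → Bool) : Set ℕ :=
  Set.range fun n : ℕ => Encodable.encode (List.ofFn fun i : Fin n => x i)

theorem br_inj (x : ℕ → Bool) :
    Function.Injective fun n : ℕ => Encodable.encode (List.ofFn fun i : Fin n => x i) := by
  intro m n h
  have h1 := Encodable.encode_injective h
  have h2 := congrArg List.length h1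
  simpa using h2

theorem br_infinite (x : ℕ → Bool) : (br x).Infinite :=
  Set.infinite_range_of_injective (br_inj x)

theorem br_inter {x y : ℕ → Bool} (h : x ≠ y) : (br x ∩ br y).Finite := by
  obtain ⟨m, hm⟩ := Function.ne_iff.1 h
  refine Set.Finite.subset
    ((Set.finite_Iic m).image fun n : ℕ => Encodable.encode (List.ofFn fun i : Fin n => x i)) ?_
  rintro _ ⟨⟨n, rfl⟩, ⟨n', h'⟩⟩
  refine ⟨n, ?_, rfl⟩
  simp only [Set.mem_Iic]
  by_contra hlt
  push Not at hlt
  have h1 := Encodable.encode_injective h'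
  have h2 := congrArg List.length h1
  simp only [List.length_ofFn] at h2
  subst h2
  have h3 := List.ofFn_injective h1
  have h4 := congrFun h3 ⟨m, hlt⟩
  exact hm h4.symm

/-- Every infinite set of natural numbers belongs to continuum many free ultrafilters. -/
theorem card_ultrafilters {T : Set ℕ} (hT : T.Infinite) :
    #(ℕ → Bool) ≤ #{u : Ultrafilter ℕ | T ∈ u ∧ (u : Filter ℕ) ≤ cofinite} := by
  classical
  let e : ℕ ↪ T := hT.natEmbedding
  have he : Function.Injective fun n => (e n : ℕ) := Subtype.val_injective.comp e.injective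
  let E : (ℕ → Bool) → Set ℕ := fun x => (fun n => (e n : ℕ)) '' br x
  have hE : ∀ x, (E x).Infinite := fun x => (br_infinite x).image he.injOn
  have hne : ∀ x, (cofinite ⊓ 𝓟 (E x) : Filter ℕ).NeBot := by
    intro x
    rw [Filter.inf_principal_neBot_iff]
    intro U hU
    by_contra hcon
    rw [Set.not_nonempty_iff_eq_empty] at hcon
    refine hE x (Set.Finite.subset (mem_cofinite.1 hU) ?_)
    intro n hn hnU
    have : n ∈ U ∩ E x := ⟨hnU, hn⟩
    rw [hcon] at this
    exact this
  have hex : ∀ x, ∃ u : Ultrafilter ℕ, (u : Filter ℕ) ≤ cofinite ⊓ 𝓟 (E x) := fun x =>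
    haveI := hne x
    Ultrafilter.exists_le _
  choose u hu using hex
  have hmem : ∀ x, E x ∈ u x := fun x => (hu x).trans inf_le_right (mem_principal_self _)
  have hfree : ∀ x, (u x : Filter ℕ) ≤ cofinite := fun x => (hu x).trans inf_le_left
  have hTmem : ∀ x, T ∈ u x := by
    intro x
    refine Filter.mem_of_superset (hmem x) ?_
    rintro _ ⟨n, -, rfl⟩
    exact (e n).2
  refine Cardinal.mk_le_of_injective
    (f := fun x => (⟨u x, hTmem x, hfree x⟩ : {u : Ultrafilter ℕ | T ∈ u ∧ (u : Filter ℕ) ≤ cofinite}))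
    ?_
  intro x y hxy
  by_contra hne'
  have h1 : u x = u y := congrArg Subtype.val hxy
  have h2 : E x ∩ E y ∈ (u x : Filter ℕ) := by
    refine Filter.inter_mem (hmem x) ?_
    have := hmem y
    rw [← h1] at this
    exact this
  have h3 : (E x ∩ E y).Finite := by
    rw [← Set.image_inter he]
    exact (br_inter hne').image _
  have h4 : (E x ∩ E y)ᶜ ∈ (u x : Filter ℕ) := hfree x (by simpa using h3)
  have h5 := Filter.inter_mem h2 h4
  rw [Set.inter_compl_self] at h5
  exact (u x).empty_notMem h5

/-- There are two disjoint families `F false`, `F true` of free ultrafilters on `ℕ` such that every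
infinite set belongs to a member of each of the two families. -/
theorem exists_families : ∃ F : Bool → Set (Ultrafilter ℕ),
    (∀ b, ∀ u ∈ F b, (u : Filter ℕ) ≤ cofinite) ∧
    (∀ u ∈ F false, ∀ v ∈ F true, u ≠ v) ∧
    ∀ b, ∀ T : Set ℕ, T.Infinite → ∃ u ∈ F b, T ∈ u := by
  classical
  let ι := {T : Set ℕ // T.Infinite} × Bool
  have hι : #ι ≤ #(ℕ → Bool) := by
    have h1 : #ι ≤ #(Set ℕ × Bool) :=
      Cardinal.mk_le_of_injective (f := fun i : ι => ((i.1 : Set ℕ), i.2)) (by
        rintro ⟨⟨a, ha⟩, b⟩ ⟨⟨c, hc⟩, d⟩ h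
        simp only [Prod.mk.injEq] at h
        obtain ⟨rfl, rfl⟩ := h
        rfl)
    refine h1.trans ?_
    have h2 : #(Set ℕ × Bool) = Cardinal.continuum := by
      rw [Cardinal.mk_prod, Cardinal.lift_id, Cardinal.lift_id, Cardinal.mk_set, Cardinal.mk_nat,
        Cardinal.two_power_aleph0]
      exact Cardinal.mul_eq_left Cardinal.aleph0_le_continuum
        ((Cardinal.lt_aleph0_of_finite Bool).le.trans Cardinal.aleph0_le_continuum) (by simp)
    have h3 : #(ℕ → Bool) = Cardinal.continuum := by
      rw [← Cardinal.power_def]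
      simp
    rw [h2, h3]
  obtain ⟨f, hf, hfS⟩ := exists_injective_choice
    (fun i : ι => {u : Ultrafilter ℕ | i.1.1 ∈ u ∧ (u : Filter ℕ) ≤ cofinite})
    (fun i => hι.trans (card_ultrafilters i.1.2))
  refine ⟨fun b => Set.range fun T : {T : Set ℕ // T.Infinite} => f (T, b), ?_, ?_, ?_⟩
  · rintro b _ ⟨T, rfl⟩
    exact (hfS (T, b)).2
  · rintro _ ⟨T, rfl⟩ _ ⟨T', rfl⟩ h
    exact Bool.false_ne_true (congrArg Prod.snd (hf h))
  · intro b T hT
    exact ⟨f (⟨T, hT⟩, b), ⟨⟨T, hT⟩, rfl⟩, (hfS (⟨T, hT⟩, b)).1⟩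

end Pool.Agent.H75.SD
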